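import Mathlib

/-!
# Matrix spaces closed under `k`-th powers: core lemmas
-/

open Matrix Polynomial

namespace H659R2.PC

variable {K : Type*} [Field K] {n : Type*} [Fintype n] [DecidableEq n]

/-! ### coefficient extraction -/

section coeff
variable {V : Type*} [AddCommGroup V] [Module K V]

lemma coeff_mem [Infinite K] (S : Submodule K V) (N : ℕ) (C : ℕ → V)
    (h : ∀ t : K, ∑ i ∈ Finset.range N, t ^ i • C i ∈ S) : ∀ i < N, C i ∈ S := by
  intro i hi
  rw [← Submodule.Quotient.mk_eq_zero S]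
  rw [← Module.forall_dual_apply_eq_zero_iff K]
  intro φ
  set p : K[X] := ∑ j ∈ Finset.range N, Polynomial.C (φ (Submodule.Quotient.mk (C j))) * X ^ j
    with hp
  have hp0 : p = 0 := by
    apply Polynomial.funext
    intro t
    have h1 := h t
    rw [← Submodule.Quotient.mk_eq_zero S] at h1
    have h2 := congrArg φ h1
    rw [map_zero] at h2
    rw [Polynomial.eval_zero, ← h2, hp, Polynomial.eval_finsetSum]
    rw [show (Submodule.Quotient.mk (∑ i ∈ Finset.range N, t ^ i • C i) : V ⧸ S)
      = S.mkQ (∑ i ∈ Finset.range N, t ^ i • C i) from rfl, map_sum, map_sum]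
    refine Finset.sum_congr rfl fun j _ => ?_
    rw [map_smul, map_smul, smul_eq_mul, Polynomial.eval_mul, Polynomial.eval_C,
      Polynomial.eval_pow, Polynomial.eval_X, Submodule.mkQ_apply]
    ring
  have := congrArg (fun q => q.coeff i) hp0
  simp only [hp, Polynomial.finsetSum_coeff, Polynomial.coeff_C_mul, Polynomial.coeff_X_pow,
    Polynomial.coeff_zero] at this
  rw [Finset.sum_eq_single i] at this
  · simpa using this
  · intro j _ hj
    rw [if_neg (Ne.symm hj), mul_zero]
  · intro hi'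
    exact absurd (Finset.mem_range.2 hi) hi'

end coeff

/-- closed under `k`-th powers -/
def PowerClosed (k : ℕ) (S : Submodule K (Matrix n n K)) : Prop := ∀ X ∈ S, X ^ k ∈ S

/-- odd-like powers -/
lemma pow_mem [CharZero K] {d : ℕ} {S : Submodule K (Matrix n n K)} (hS : PowerClosed (d + 1) S)
    {X : Matrix n n K} (hX : X ∈ S) (j : ℕ) : X ^ (1 + d * j) ∈ S := by
  induction j with
  | zero => simpa using hX
  | succ j ih =>
    have key : ∀ t : K, ∑ i ∈ Finset.range (d + 1 + 1),
        t ^ i • (((d + 1).choose i : K) • (X ^ ((1 + d * j) * i) * X ^ (d + 1 - i))) ∈ S := by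
      intro t
      have h1 : (t • X ^ (1 + d * j) + X) ^ (d + 1) ∈ S := hS _ (S.add_mem (S.smul_mem t ih) hX)
      have hc : Commute (t • X ^ (1 + d * j)) X :=
        ((Commute.refl X).pow_left _).smul_left t
      rw [hc.add_pow] at h1
      convert h1 using 1
      refine Finset.sum_congr rfl fun i _ => ?_
      rw [_root_.smul_pow, ← pow_mul, smul_smul, mul_comm, ← smul_smul]
      rw [smul_mul_assoc, smul_mul_assoc]
      rw [smul_comm]
      congr 1
      rw [← Nat.cast_comm, ← nsmul_eq_mul, Nat.cast_smul_eq_nsmul]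
    have h2 := coeff_mem S (d + 1 + 1) _ key 1 (by omega)
    simp only [Nat.choose_one_right, mul_one] at h2
    rw [← pow_add] at h2
    have h3 : ((d + 1 : ℕ) : K) ≠ 0 := Nat.cast_ne_zero.2 (by omega)
    have h4 := S.smul_mem ((d + 1 : ℕ) : K)⁻¹ h2
    rw [smul_smul, inv_mul_cancel₀ h3, one_smul] at h4
    convert h4 using 2
    rw [Nat.add_sub_cancel]
    ring

/-- polynomials with exponents `≡ 1 (mod d)` -/
lemma aeval_mem [CharZero K] {d : ℕ} {S : Submodule K (Matrix n n K)}
    (hS : PowerClosed (d + 1) S) {X : Matrix n n K} (hX : X ∈ S) (p : K[X]) :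
    X * aeval (X ^ d) p ∈ S := by
  induction p using Polynomial.induction_on' with
  | add p q hp hq => rw [map_add, mul_add]; exact S.add_mem hp hq
  | monomial j a =>
    rw [aeval_monomial, ← pow_mul, Algebra.left_comm, ← pow_succ', add_comm (d * j) 1,
      ← Algebra.smul_def]
    exact S.smul_mem a (pow_mem hS hX j)

/-! ### the Fitting idempotent -/

lemma fitting (Z : Matrix n n K) : ∃ q : K[X], ∃ N : ℕ,
    IsIdempotentElem (Z * aeval Z q) ∧ Z ^ N * (1 - Z * aeval Z q) = 0 := by
  obtain ⟨c, hc, hnd⟩ := Polynomial.exists_eq_pow_rootMultiplicity_mul_and_not_dvd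
    Z.charpoly (Matrix.charpoly_monic Z).ne_zero 0
  set a := rootMultiplicity 0 Z.charpoly with ha
  rw [map_zero, sub_zero] at hc hnd
  have hcop : IsCoprime (X ^ (a + 1) : K[X]) c :=
    ((Polynomial.irreducible_X (R := K)).coprime_iff_not_dvd.2 hnd).pow_left
  obtain ⟨u, v, huv⟩ := hcop
  have hZ : aeval Z (X ^ a * c) = 0 := by rw [← hc]; exact Matrix.aeval_self_charpoly Z
  have hE : Z * aeval Z (u * X ^ a) = aeval Z (u * X ^ (a + 1)) := by
    have e : u * X ^ (a + 1) = X * (u * X ^ a) := by ring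
    rw [e, map_mul (aeval Z) X, aeval_X]
  have h1E : 1 - Z * aeval Z (u * X ^ a) = aeval Z (v * c) := by
    rw [hE, sub_eq_iff_eq_add, ← map_add, add_comm, huv, map_one]
  refine ⟨u * X ^ a, a, ?_, ?_⟩
  · have h0 : Z * aeval Z (u * X ^ a) * (1 - Z * aeval Z (u * X ^ a)) = 0 := by
      rw [h1E, hE, ← map_mul]
      have : u * X ^ (a + 1) * (v * c) = u * v * X * (X ^ a * c) := by ring
      rw [this, map_mul, hZ, mul_zero]
    unfold IsIdempotentElem
    rw [mul_sub, mul_one, sub_eq_zero] at h0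
    exact h0.symm
  · rw [h1E, show Z ^ a = aeval Z (X ^ a : K[X]) by simp, ← map_mul]
    have : X ^ a * (v * c) = v * (X ^ a * c) := by ring
    rw [this, map_mul, hZ, mul_zero]

/-- `P` is the projection onto the kernel of `A` along the image of `A` (in particular
`rank A² = rank A`). -/
structure IsCore (A P : Matrix n n K) : Prop where
  idem : P * P = P
  mulP : A * P = 0
  Pmul : P * A = 0
  unit : IsUnit (A + P)

omit [Fintype n] in
lemma _root_.Matrix.isUnit_of_mul_eq_one' {n : Type*} [Fintype n] [DecidableEq n]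
    {A B : Matrix n n K} (h : A * B = 1) : IsUnit A := by
  have h' : B * A = 1 := mul_eq_one_comm.1 h
  exact ⟨⟨A, B, h, h'⟩, rfl⟩

lemma IsCore.add_pow {A P : Matrix n n K} (h : IsCore A P) (m : ℕ) :
    (A + P) ^ (m + 1) = A ^ (m + 1) + P := by
  induction m with
  | zero => simp
  | succ m ih =>
    rw [pow_succ, ih, pow_succ A (m + 1), mul_add, add_mul, add_mul, h.Pmul, h.idem,
      pow_succ A m, mul_assoc (A ^ m) A P, h.mulP]
    simp

lemma IsCore.sandwich {A P : Matrix n n K} (h : IsCore A P) (m : ℕ) :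
    (1 - P) * A ^ m * (1 - P) + P = (A + P) ^ m := by
  cases m with
  | zero =>
    simp only [pow_zero, mul_one]
    rw [mul_sub, mul_one, sub_mul, one_mul, h.idem, sub_self, sub_zero, sub_add_cancel]
  | succ m =>
    rw [h.add_pow]
    congr 1
    have h1 : (1 - P) * A ^ (m + 1) = A ^ (m + 1) := by
      rw [sub_mul, one_mul, pow_succ', ← mul_assoc, h.Pmul, zero_mul, sub_zero]
    rw [h1, mul_sub, mul_one, pow_succ, mul_assoc, h.mulP, mul_zero, sub_zero]

lemma IsCore.pow {A P : Matrix n n K} (h : IsCore A P) (m : ℕ) : IsCore (A ^ (m + 1)) P where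
  idem := h.idem
  mulP := by rw [pow_succ, mul_assoc, h.mulP, mul_zero]
  Pmul := by rw [pow_succ', ← mul_assoc, h.Pmul, zero_mul]
  unit := by rw [← h.add_pow]; exact h.unit.pow _

/-- the core projection is a polynomial in the matrix -/
lemma IsCore.eq_fitting {Z P : Matrix n n K} (h : IsCore Z P) {q : K[X]} {N : ℕ}
    (hN : Z ^ N * (1 - Z * aeval Z q) = 0) : 1 - Z * aeval Z q = P := by
  have hN' : Z ^ (N + 1) * (1 - Z * aeval Z q) = 0 := by
    rw [pow_succ', mul_assoc, hN, mul_zero]
  have hPE : P * (1 - Z * aeval Z q) = P := by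
    rw [mul_sub, mul_one, ← mul_assoc, h.Pmul, zero_mul, sub_zero]
  have h1 : (Z + P) ^ (N + 1) * ((1 - Z * aeval Z q) - P) = 0 := by
    rw [mul_sub, h.add_pow, add_mul, add_mul, hN', hPE, h.idem, pow_succ, mul_assoc, h.mulP]
    simp
  have h2 : IsUnit ((Z + P) ^ (N + 1)) := h.unit.pow _
  obtain ⟨U, hU⟩ := h2
  rw [← hU] at h1
  have h3 := congrArg (fun M => (↑U⁻¹ : Matrix n n K) * M) h1
  simp only [← mul_assoc, Units.inv_mul, one_mul, mul_zero] at h3
  exact sub_eq_zero.1 h3

lemma exists_core {A : Matrix n n K} (hA : (A * A).rank = A.rank) : ∃ P, IsCore A P := by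
  obtain ⟨q, N, hid, hN⟩ := fitting A
  have hker : ∀ v : n → K, A *ᵥ (A *ᵥ v) = 0 → A *ᵥ v = 0 := by
    have hle : LinearMap.ker A.mulVecLin ≤ LinearMap.ker (A * A).mulVecLin := by
      intro v hv
      rw [LinearMap.mem_ker, Matrix.mulVecLin_apply] at hv ⊢
      rw [← Matrix.mulVec_mulVec, hv, Matrix.mulVec_zero]
    have h1 := LinearMap.finrank_range_add_finrank_ker A.mulVecLin
    have h2 := LinearMap.finrank_range_add_finrank_ker (A * A).mulVecLin
    have h3 : Module.finrank K (LinearMap.range (A * A).mulVecLin)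
        = Module.finrank K (LinearMap.range A.mulVecLin) := hA
    have heq := Submodule.eq_of_le_of_finrank_eq hle (by omega)
    intro v hv
    have : v ∈ LinearMap.ker (A * A).mulVecLin := by
      rw [LinearMap.mem_ker, Matrix.mulVecLin_apply, ← Matrix.mulVec_mulVec, hv]
    rw [← heq, LinearMap.mem_ker, Matrix.mulVecLin_apply] at this
    exact this
  have hmat : ∀ M : Matrix n n K, A * (A * M) = 0 → A * M = 0 := by
    intro M hM
    apply Matrix.toLin'.injective
    apply LinearMap.ext
    intro v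
    have h1 := congrArg (fun L : Matrix n n K => L *ᵥ v) hM
    simp only [← Matrix.mulVec_mulVec, Matrix.zero_mulVec] at h1
    rw [Matrix.toLin'_apply, ← Matrix.mulVec_mulVec, map_zero]
    exact hker _ h1
  have hAP : A * (1 - A * aeval A q) = 0 := by
    have : ∀ N : ℕ, A ^ N * (1 - A * aeval A q) = 0 → A * (1 - A * aeval A q) = 0 := by
      intro N
      induction N with
      | zero => intro h; rw [pow_zero, one_mul] at h; rw [h, mul_zero]
      | succ N ih =>
        intro h
        cases N with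
        | zero => simpa using h
        | succ N =>
          apply ih
          rw [pow_succ', mul_assoc] at h ⊢
          rw [pow_succ', mul_assoc] at h
          exact hmat _ h
    exact this N hN
  have hcomm : Commute A (aeval A q) := by
    have : Commute (aeval A (X : K[X])) (aeval A q) := (Commute.all X q).map (aeval A)
    rwa [aeval_X] at this
  set E := A * aeval A q with hE
  have hcE : Commute A E := by
    rw [hE]; exact (Commute.refl A).mul_right hcomm
  have hPA : (1 - E) * A = 0 := by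
    rw [sub_mul, one_mul, ← hcE.eq, ← hAP, mul_sub, mul_one]
  have hid' : E * E = E := hid
  refine ⟨1 - E, ?_, hAP, hPA, ?_⟩
  · rw [mul_sub, mul_one, sub_mul, one_mul, hid', sub_self, sub_zero]
  · apply Matrix.isUnit_of_mul_eq_one' (B := aeval A q * E + (1 - E))
    have hPE : (1 - E) * E = 0 := by rw [sub_mul, one_mul, hid', sub_self]
    have hPq : (1 - E) * (aeval A q * E) = 0 := by
      have hcq : Commute E (aeval A q) := by
        rw [hE]; exact hcomm.mul_left (Commute.refl _)
      have hc2 : (1 - E) * aeval A q = aeval A q * (1 - E) := by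
        rw [sub_mul, mul_sub, one_mul, mul_one, hcq.eq]
      rw [← mul_assoc, hc2, mul_assoc, hPE, mul_zero]
    rw [add_mul, mul_add, mul_add, hPq, hAP, ← mul_assoc, ← hE, hid', mul_sub, mul_one, sub_mul,
      one_mul, hid']
    abel

/-! ### the corner `P S P` is contained in `S` -/

lemma corner_mem [CharZero K] {d : ℕ} (hd : 1 ≤ d) {S : Submodule K (Matrix n n K)}
    (hS : PowerClosed (d + 1) S) {A P B : Matrix n n K} (hA : A ∈ S) (hP : IsCore A P)
    (hB : B ∈ S) : P * B * P ∈ S := by
  obtain ⟨q, N, -, hN⟩ := fitting (A ^ d)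
  have hPd : IsCore (A ^ d) P := by
    obtain ⟨m, rfl⟩ : ∃ m, d = m + 1 := ⟨d - 1, by omega⟩
    exact hP.pow m
  have hh := hPd.eq_fitting hN
  set h : K[X] := 1 - X * q with hhdef
  have hhA : aeval (A ^ d) h = P := by
    rw [hhdef, map_sub, map_one, map_mul, aeval_X, hh]
  -- the generic element
  set M : (Matrix n n K)[X] := Polynomial.C A + X * Polynomial.C B with hM
  set F : (Matrix n n K)[X] := M * aeval (M ^ d) (h * h) with hF
  have hcomm : ∀ t : K, ∀ a : Matrix n n K,
      Commute ((AlgHom.id K (Matrix n n K)) a) (algebraMap K (Matrix n n K) t) :=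
    fun t a => (Algebra.commutes t _).symm
  set ev : K → ((Matrix n n K)[X] →ₐ[K] Matrix n n K) := fun t =>
    eval₂AlgHom (AlgHom.id K (Matrix n n K)) (algebraMap K _ t) (hcomm t) with hev
  have evsum : ∀ t : K, ∀ G : (Matrix n n K)[X], ∀ m, G.natDegree < m →
      ev t G = ∑ i ∈ Finset.range m, t ^ i • G.coeff i := by
    intro t G m hm
    have : ev t G = eval₂ ((AlgHom.id K (Matrix n n K) : Matrix n n K →ₐ[K] Matrix n n K) :
      Matrix n n K →+* Matrix n n K) (algebraMap K _ t) G := rfl
    rw [this, eval₂_eq_sum_range' _ hm]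
    refine Finset.sum_congr rfl fun i _ => ?_
    rw [← map_pow, ← Algebra.commutes, ← Algebra.smul_def]
    rfl
  have evM : ∀ t : K, ev t M = A + t • B := by
    intro t
    have h1 : ev t (Polynomial.C A) = A := eval₂_C _ _
    have h2 : ev t (Polynomial.C B) = B := eval₂_C _ _
    have h3 : ev t (X : (Matrix n n K)[X]) = algebraMap K _ t := eval₂_X _ _
    rw [hM, map_add, map_mul, h1, h2, h3, ← Algebra.smul_def]
  have evF : ∀ t : K, ev t F ∈ S := by
    intro t
    rw [hF, map_mul, ← aeval_algHom_apply, map_pow, evM]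
    exact aeval_mem hS (S.add_mem hA (S.smul_mem t hB)) _
  have hF1 : F.coeff 1 ∈ S := by
    refine coeff_mem S (F.natDegree + 2) (fun i => F.coeff i) ?_ 1 (by omega)
    intro t
    rw [← evsum t F _ (by omega)]
    exact evF t
  -- compute the coefficient
  set H : (Matrix n n K)[X] := aeval (M ^ d) h with hH
  have hH0 : H.coeff 0 = P := by
    have h1 := evsum 0 H (H.natDegree + 1) (by omega)
    rw [Finset.sum_range_succ'] at h1
    simp only [pow_succ, mul_zero, zero_smul, Finset.sum_const_zero, zero_add, pow_zero,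
      one_smul] at h1
    rw [← h1, hH, ← aeval_algHom_apply, map_pow, evM, zero_smul, add_zero, hhA]
  have hM0 : M.coeff 0 = A := by
    rw [hM, coeff_add, coeff_C_zero, mul_coeff_zero, coeff_X_zero, zero_mul, add_zero]
  have hM1 : M.coeff 1 = B := by
    rw [hM, coeff_add, mul_coeff_one, coeff_X_zero, zero_mul, zero_add, coeff_X_one, one_mul,
      coeff_C_zero, coeff_C, if_neg one_ne_zero, zero_add]
  have hcMH : Commute M H := by
    have : Commute M (M ^ d) := (Commute.refl M).pow_right d
    rw [hH]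
    have h2 : ∀ p : K[X], Commute M (aeval (M ^ d) p) := by
      intro p
      induction p using Polynomial.induction_on' with
      | add p q hp hq => rw [map_add]; exact hp.add_right hq
      | monomial j a =>
        rw [aeval_monomial]
        exact (show Commute M (algebraMap K _ a) from
          (Algebra.commutes a M).symm).mul_right (this.pow_right j)
    exact h2 h
  have hF' : F = M * (H * H) := by rw [hF, map_mul]
  have hF'' : F = (H * H) * M := by
    rw [hF', (hcMH.mul_right hcMH).eq]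
  have e1 : F.coeff 1 = (A * H.coeff 1 + B) * P := by
    rw [hF', mul_coeff_one, mul_coeff_one, mul_coeff_zero, hM0, hM1, hH0, hP.idem, mul_add,
      ← mul_assoc, hP.mulP, zero_mul, zero_add, ← mul_assoc, ← add_mul]
  have e2 : F.coeff 1 = P * (B + H.coeff 1 * A) := by
    rw [hF'', mul_coeff_one, mul_coeff_one, mul_coeff_zero, hM0, hM1, hH0, hP.idem, add_mul,
      mul_assoc (H.coeff 1), hP.Pmul, mul_zero, add_zero, mul_assoc, ← mul_add]
  have e3 : F.coeff 1 * P = F.coeff 1 := by
    rw [e1, mul_assoc, hP.idem]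
  have e4 : P * F.coeff 1 = P * B * P := by
    rw [e1, ← mul_assoc, mul_add, ← mul_assoc P A, hP.Pmul, zero_mul, zero_add]
  have e5 : P * F.coeff 1 = F.coeff 1 := by
    rw [e2, ← mul_assoc, hP.idem]
  rw [← e4, e5]
  exact hF1

/-! ### the certificate -/

lemma eq_zero_of_nilpotent_corner {P N L : Matrix n n K} (hPN : P * N = N) (hL : L * N = P)
    (hN : IsNilpotent N) : P = 0 := by
  obtain ⟨j, hj⟩ := hN
  have h : ∀ j : ℕ, L ^ (j + 1) * N ^ (j + 1) = P := by
    intro j
    induction j with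
    | zero => simpa using hL
    | succ j ih =>
      rw [pow_succ' L, pow_succ N (j + 1), mul_assoc, ← mul_assoc (L ^ (j + 1)), ih, hPN, hL]
  rw [← h j, pow_succ N, hj, zero_mul, mul_zero]

lemma certificate [CharZero K] {d : ℕ} (hd : 1 ≤ d) {S : Submodule K (Matrix n n K)}
    (hS : PowerClosed (d + 1) S) {A P : Matrix n n K} (hA : A ∈ S) (hP : IsCore A P)
    (hnil : ∀ X ∈ S, IsNilpotent (P * X * P)) {B : Matrix n n K} (hB : B ∈ S)
    (hBu : IsUnit B) : P = 0 := by
  obtain ⟨m, rfl⟩ : ∃ m, d = m + 1 := ⟨d - 1, by omega⟩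
  have hBdet : B.det ≠ 0 := ((Matrix.isUnit_iff_isUnit_det B).1 hBu).ne_zero
  set e := 1 - P with he
  -- the two polynomials
  set MX : Matrix n n K[X] := A.map Polynomial.C + (X : K[X]) • B.map Polynomial.C with hMX
  set p1 : K[X] := MX.det with hp1
  set p2 : K[X] := (e.map Polynomial.C * MX ^ m * e.map Polynomial.C
    + P.map Polynomial.C).det with hp2
  have hmapC : ∀ (t : K) (Z : Matrix n n K),
      (evalRingHom t).mapMatrix (Z.map Polynomial.C) = Z := by
    intro t Z
    ext i j
    simp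
  have hev : ∀ t : K, (evalRingHom t).mapMatrix MX = A + t • B := by
    intro t
    rw [hMX, map_add, hmapC]
    congr 1
    ext i j
    rw [RingHom.mapMatrix_apply, Matrix.map_apply, Matrix.smul_apply, Matrix.smul_apply,
      Matrix.map_apply, smul_eq_mul, smul_eq_mul, map_mul, coe_evalRingHom, eval_X, eval_C]
  have hev1 : ∀ t : K, p1.eval t = (A + t • B).det := by
    intro t
    rw [hp1, ← coe_evalRingHom, RingHom.map_det, hev]
  have hev2 : ∀ t : K, p2.eval t = (e * (A + t • B) ^ m * e + P).det := by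
    intro t
    rw [hp2, ← coe_evalRingHom, RingHom.map_det, map_add, map_mul, map_mul, map_pow, hev, hmapC,
      hmapC]
  have hp1ne : p1 ≠ 0 := by
    have hBB : B * B⁻¹ = 1 := Matrix.mul_nonsing_inv B ((Matrix.isUnit_iff_isUnit_det B).1 hBu)
    have : p1 = Polynomial.C B.det * (-(B⁻¹ * A)).charpoly := by
      rw [Matrix.charpoly, Matrix.charmatrix, hp1]
      have h1 : (Polynomial.C B.det : K[X]) = (B.map Polynomial.C).det :=
        RingHom.map_det Polynomial.C B
      rw [h1, ← Matrix.det_mul]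
      congr 1
      rw [hMX, mul_sub]
      have h2 : B.map Polynomial.C * (Matrix.scalar n) (X : K[X]) = (X : K[X]) • B.map Polynomial.C := by
        ext i j
        rw [Matrix.scalar_apply, Matrix.mul_diagonal, Matrix.smul_apply, smul_eq_mul, mul_comm]
      have h3 : B.map Polynomial.C * (Polynomial.C : K →+* K[X]).mapMatrix (-(B⁻¹ * A))
          = - A.map Polynomial.C := by
        have : B.map Polynomial.C = (Polynomial.C : K →+* K[X]).mapMatrix B := rfl
        rw [this, ← map_mul, mul_neg, ← mul_assoc, hBB, one_mul, map_neg]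
        rfl
      rw [h2, h3, sub_neg_eq_add, add_comm]
    rw [this]
    exact mul_ne_zero (by simpa using hBdet) (Matrix.charpoly_monic _).ne_zero
  have hp2ne : p2 ≠ 0 := by
    intro h0
    have h1 := hev2 0
    rw [h0, eval_zero, zero_smul, add_zero, hP.sandwich m] at h1
    exact ((Matrix.isUnit_iff_isUnit_det _).1 (hP.unit.pow m)).ne_zero h1.symm
  obtain ⟨t, ht⟩ : ∃ t : K, (p1 * p2).eval t ≠ 0 := by
    by_contra hcon
    push Not at hcon
    exact mul_ne_zero hp1ne hp2ne (Polynomial.funext fun t => by rw [hcon t, eval_zero])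
  rw [eval_mul, hev1, hev2] at ht
  have ht1 := left_ne_zero_of_mul ht
  have ht2 := right_ne_zero_of_mul ht
  set Q := A + t • B with hQ
  have hQS : Q ∈ S := S.add_mem hA (S.smul_mem t hB)
  have hQu : IsUnit Q := (Matrix.isUnit_iff_isUnit_det Q).2 (isUnit_iff_ne_zero.2 ht1)
  -- W = Q^{-m} in S
  obtain ⟨q, N, -, hN⟩ := fitting (Q ^ (m + 1))
  have hQd : Q ^ (m + 1) * aeval (Q ^ (m + 1)) q = 1 := by
    obtain ⟨U, hU⟩ := ((hQu.pow (m + 1)).pow N)
    rw [← hU] at hN
    have h3 := congrArg (fun M => (↑U⁻¹ : Matrix n n K) * M) hN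
    simp only [← mul_assoc, Units.inv_mul, one_mul, mul_zero] at h3
    exact (sub_eq_zero.1 h3).symm
  set W := Q * aeval (Q ^ (m + 1)) q with hW
  have hWS : W ∈ S := aeval_mem hS hQS q
  have hQW : Q ^ m * W = 1 := by rw [hW, ← mul_assoc, ← pow_succ, hQd]
  set F := e * Q ^ m * e + P with hF
  have hFu : IsUnit F := (Matrix.isUnit_iff_isUnit_det F).2 (isUnit_iff_ne_zero.2 ht2)
  obtain ⟨U, hU⟩ := hFu
  set Fi : Matrix n n K := ↑U⁻¹ with hFi
  have hFiF : Fi * F = 1 := by rw [hFi, ← hU]; exact U.inv_mul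
  have hPe : P * e = 0 := by rw [he, mul_sub, mul_one, hP.idem, sub_self]
  have heP : e * P = 0 := by rw [he, sub_mul, one_mul, hP.idem, sub_self]
  have hee : e * e = e := by
    conv_lhs => rw [he, mul_sub, mul_one, ← he, heP, sub_zero]
  have key : F * (e * W * P) = -(e * Q ^ m * (P * W * P)) := by
    have h1 : e * (e * W * P) = e * W * P := by rw [← mul_assoc, ← mul_assoc, hee]
    have h2 : P * (e * W * P) = 0 := by rw [← mul_assoc, ← mul_assoc, hPe, zero_mul, zero_mul]
    rw [hF, add_mul, h2, add_zero, mul_assoc (e * Q ^ m), h1]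
    have h3 : e * W * P = W * P - P * W * P := by rw [he, sub_mul, sub_mul, one_mul]
    have h4 : e * Q ^ m * (W * P) = 0 := by
      rw [mul_assoc, ← mul_assoc (Q ^ m), hQW, one_mul, heP]
    rw [h3, mul_sub, h4, zero_sub]
  have key2 : e * W * P = -(Fi * (e * Q ^ m * (P * W * P))) := by
    rw [← mul_neg, ← key, ← mul_assoc Fi F, hFiF, one_mul]
  refine eq_zero_of_nilpotent_corner (N := P * W * P) (L := Q ^ m * (1 - Fi * (e * Q ^ m)))
    ?_ ?_ (hnil W hWS)
  · rw [← mul_assoc, ← mul_assoc, hP.idem]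
  · have h1 : (1 - Fi * (e * Q ^ m)) * (P * W * P) = W * P := by
      rw [sub_mul, one_mul, mul_assoc Fi, sub_eq_add_neg, ← key2]
      rw [he, sub_mul, sub_mul, one_mul]
      abel
    rw [mul_assoc, h1, ← mul_assoc, hQW, one_mul]

/-! ### vanishing traces -/

lemma isNilpotent_of_trace [CharZero K] {Z : Matrix n n K}
    (h : ∀ j : ℕ, (Z ^ (j + 1)).trace = 0) : IsNilpotent Z := by
  obtain ⟨q, N, hid, hN⟩ := fitting Z
  have htr : ∀ p : K[X], (Z * aeval Z p).trace = 0 := by
    intro p
    induction p using Polynomial.induction_on' with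
    | add p q hp hq => rw [map_add, mul_add, Matrix.trace_add, hp, hq, add_zero]
    | monomial j a =>
      rw [aeval_monomial, Algebra.left_comm, ← pow_succ', ← Algebra.smul_def, Matrix.trace_smul,
        h j, smul_zero]
  have h0 : Z * aeval Z q = 0 := by
    have hid' : IsIdempotentElem (Matrix.toLin' (Z * aeval Z q)) := by
      unfold IsIdempotentElem at hid ⊢
      rw [Module.End.mul_eq_comp, ← Matrix.toLin'_mul, hid]
    have := LinearMap.IsIdempotentElem.eq_zero_of_trace_eq_zero hid'
      (by rw [Matrix.trace_toLin'_eq]; exact htr q)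
    exact Matrix.toLin'.injective (by rw [this, map_zero])
  rw [h0, sub_zero, mul_one] at hN
  exact ⟨N, hN⟩

lemma nilpotent_corner [CharZero K] {d : ℕ} (hd : 1 ≤ d) {S : Submodule K (Matrix n n K)}
    (hS : PowerClosed (d + 1) S) {A P : Matrix n n K} (hA : A ∈ S) (hP : IsCore A P)
    (htr : ∀ X ∈ S, ((P * X * P) ^ d).trace = 0) {X : Matrix n n K} (hX : X ∈ S) :
    IsNilpotent (P * X * P) := by
  set Y := P * X * P with hY
  have hYS : Y ∈ S := corner_mem hd hS hA hP hX
  have hPY : P * Y = Y := by rw [hY, ← mul_assoc, ← mul_assoc, hP.idem]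
  have hYP : Y * P = Y := by rw [hY, mul_assoc, hP.idem]
  have hpow : ∀ j : ℕ, P * Y ^ (j + 1) * P = Y ^ (j + 1) := by
    intro j
    have a : P * Y ^ (j + 1) = Y ^ (j + 1) := by rw [pow_succ', ← mul_assoc, hPY]
    have b : Y ^ (j + 1) * P = Y ^ (j + 1) := by rw [pow_succ, mul_assoc, hYP]
    rw [a, b]
  have hcast : ∀ (M : Matrix n n K) (c : ℕ), (M * (c : Matrix n n K)).trace
      = (c : K) * M.trace := by
    intro M c
    rw [← Nat.cast_comm, ← nsmul_eq_mul, Matrix.trace_smul, nsmul_eq_mul]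
  have key : ∀ j : ℕ, (Y ^ (d * (j + 1))).trace = 0 := by
    intro j
    have h1 : ∀ s : K, ∑ i ∈ Finset.range (d + 1),
        s ^ i • ((d.choose i : K) * (Y ^ ((1 + d * j) * i) * Y ^ (d - i)).trace)
          ∈ (⊥ : Submodule K K) := by
      intro s
      rw [Submodule.mem_bot]
      have hmem : s • Y ^ (1 + d * j) + Y ∈ S :=
        S.add_mem (S.smul_mem s (pow_mem hS hYS j)) hYS
      have h2 := htr _ hmem
      have h3 : P * (s • Y ^ (1 + d * j) + Y) * P = s • Y ^ (1 + d * j) + Y := by
        rw [mul_add, add_mul, hPY, hYP, mul_smul_comm, smul_mul_assoc, add_comm 1 (d * j), hpow]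
      rw [h3] at h2
      have hc : Commute (s • Y ^ (1 + d * j)) Y := ((Commute.refl Y).pow_left _).smul_left s
      rw [hc.add_pow, Matrix.trace_sum] at h2
      rw [← h2]
      refine Finset.sum_congr rfl fun i _ => ?_
      rw [_root_.smul_pow, ← pow_mul, smul_mul_assoc, smul_mul_assoc, Matrix.trace_smul, hcast]
    have h2 := coeff_mem (⊥ : Submodule K K) (d + 1) _ h1 1 (by omega)
    rw [Submodule.mem_bot, Nat.choose_one_right, mul_one, ← pow_add] at h2
    have h3 : (d : K) ≠ 0 := Nat.cast_ne_zero.2 (by omega)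
    have h4 := (mul_eq_zero.1 h2).resolve_left h3
    have h5 : 1 + d * j + (d - 1) = d * (j + 1) := by rw [mul_add]; omega
    rwa [h5] at h4
  have hn : IsNilpotent (Y ^ d) := by
    apply isNilpotent_of_trace
    intro j
    rw [← pow_mul]
    exact key j
  obtain ⟨N, hN⟩ := hn
  exact ⟨d * N, by rw [pow_mul, hN]⟩

/-! ### augmentation -/

lemma rank_pow_eq {Z : Matrix n n K} {j : ℕ} (hj : Fintype.card n ≤ j) :
    (Z ^ j * Z ^ j).rank = (Z ^ j).rank := by
  have h1 : ∀ a : ℕ, Fintype.card n ≤ a →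
      LinearMap.ker ((Matrix.toLin' Z) ^ a) = LinearMap.ker ((Matrix.toLin' Z) ^ (Fintype.card n)) := by
    intro a ha
    have := Module.End.ker_pow_eq_ker_pow_finrank_of_le (f := Matrix.toLin' Z) (m := a)
      (by rw [Module.finrank_fintype_fun_eq_card]; exact ha)
    rwa [Module.finrank_fintype_fun_eq_card] at this
  have hr : ∀ a : ℕ, (Z ^ a).rank + Module.finrank K (LinearMap.ker ((Matrix.toLin' Z) ^ a))
      = Fintype.card n := by
    intro a
    have h2 := LinearMap.finrank_range_add_finrank_ker ((Matrix.toLin' Z) ^ a)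
    rw [Module.finrank_fintype_fun_eq_card] at h2
    rw [← h2]
    congr 1
    rw [Matrix.rank]
    have : (Matrix.toLin' Z) ^ a = (Z ^ a).mulVecLin := by
      rw [← Matrix.toLin'_pow]; rfl
    rw [this]
  have e1 := hr j
  have e2 := hr (j + j)
  rw [h1 _ hj] at e1
  rw [h1 _ (by omega)] at e2
  rw [← pow_add]
  omega

lemma augment [CharZero K] {d : ℕ} (hd : 1 ≤ d) {S : Submodule K (Matrix n n K)}
    (hS : PowerClosed (d + 1) S) {A P : Matrix n n K} (hA : A ∈ S) (hP : IsCore A P)
    {X : Matrix n n K} (hX : X ∈ S) (htr : ((P * X * P) ^ d).trace ≠ 0) :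
    (A + P * X * P) ^ (1 + d * Fintype.card n) ∈ S ∧
    ((A + P * X * P) ^ (1 + d * Fintype.card n)
      * (A + P * X * P) ^ (1 + d * Fintype.card n)).rank
      = ((A + P * X * P) ^ (1 + d * Fintype.card n)).rank ∧
    A.rank < ((A + P * X * P) ^ (1 + d * Fintype.card n)).rank := by
  set Y := P * X * P with hY
  have hYS : Y ∈ S := corner_mem hd hS hA hP hX
  refine ⟨pow_mem hS (S.add_mem hA hYS) _, rank_pow_eq (by nlinarith), ?_⟩
  have hPY : P * Y = Y := by rw [hY, ← mul_assoc, ← mul_assoc, hP.idem]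
  have hYP : Y * P = Y := by rw [hY, mul_assoc, hP.idem]
  have hAY : A * Y = 0 := by rw [← hPY, ← mul_assoc, hP.mulP, zero_mul]
  have hYA : Y * A = 0 := by rw [← hYP, mul_assoc, hP.Pmul, mul_zero]
  have hpow : ∀ m : ℕ, (A + Y) ^ (m + 1) = A ^ (m + 1) + Y ^ (m + 1) := by
    intro m
    induction m with
    | zero => simp
    | succ m ih =>
      rw [pow_succ, ih, pow_succ A (m + 1), pow_succ Y (m + 1), mul_add, add_mul, add_mul,
        pow_succ Y m, mul_assoc (Y ^ m) Y A, hYA, pow_succ A m, mul_assoc (A ^ m) A Y, hAY]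
      simp
  set m := d * Fintype.card n with hm
  rw [add_comm 1 m, hpow]
  -- Y^(m+1) ≠ 0
  have hYne : Y ^ (m + 1) ≠ 0 := by
    intro h0
    apply htr
    have hnil : IsNilpotent (Y ^ d) := ⟨m + 1, by rw [← pow_mul, mul_comm, pow_mul, h0,
      zero_pow (by omega)]⟩
    exact (Matrix.isNilpotent_trace_of_isNilpotent hnil).eq_zero
  have hrA : (A ^ (m + 1)).rank = A.rank := by
    have h1 : A ^ (m + 1) = (A + P) ^ m * A := by
      cases m with
      | zero => simp
      | succ m => rw [hP.add_pow, add_mul, hP.Pmul, add_zero, ← pow_succ]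
    rw [h1]
    exact Matrix.rank_mul_eq_right_of_isUnit_det _ _
      ((Matrix.isUnit_iff_isUnit_det _).1 (hP.unit.pow m))
  rw [← hrA]
  have hAP' : A ^ (m + 1) * (1 - P) = A ^ (m + 1) := by
    rw [mul_sub, mul_one, pow_succ, mul_assoc, hP.mulP, mul_zero, sub_zero]
  have hYP' : Y ^ (m + 1) * (1 - P) = 0 := by
    rw [mul_sub, mul_one, pow_succ, mul_assoc, hYP, sub_self]
  have hAP2 : A ^ (m + 1) * P = 0 := by rw [pow_succ, mul_assoc, hP.mulP, mul_zero]
  have hYP2 : Y ^ (m + 1) * P = Y ^ (m + 1) := by rw [pow_succ, mul_assoc, hYP]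
  have hPA2 : P * A ^ (m + 1) = 0 := by rw [pow_succ', ← mul_assoc, hP.Pmul, zero_mul]
  have hPY2 : P * Y ^ (m + 1) = Y ^ (m + 1) := by rw [pow_succ', ← mul_assoc, hPY]
  set A1 := A ^ (m + 1) with hA1
  set Y1 := Y ^ (m + 1) with hY1
  have hle : LinearMap.range A1.mulVecLin ≤ LinearMap.range (A1 + Y1).mulVecLin := by
    rintro _ ⟨v, rfl⟩
    refine ⟨(1 - P) *ᵥ v, ?_⟩
    rw [Matrix.mulVecLin_apply, Matrix.mulVecLin_apply, Matrix.mulVec_mulVec, add_mul, hAP', hYP',
      add_zero]
  have hlt : LinearMap.range A1.mulVecLin < LinearMap.range (A1 + Y1).mulVecLin := by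
    refine lt_of_le_of_ne hle fun heq => hYne ?_
    apply Matrix.toLin'.injective
    apply LinearMap.ext
    intro v
    rw [Matrix.toLin'_apply, map_zero]
    have h1 : Y1 *ᵥ v ∈ LinearMap.range (A1 + Y1).mulVecLin := by
      refine ⟨P *ᵥ v, ?_⟩
      rw [Matrix.mulVecLin_apply, Matrix.mulVec_mulVec, add_mul, hAP2, hYP2, zero_add]
    rw [← heq] at h1
    obtain ⟨w, hw⟩ := h1
    rw [Matrix.mulVecLin_apply] at hw
    have h2 : P *ᵥ (Y1 *ᵥ v) = Y1 *ᵥ v := by rw [Matrix.mulVec_mulVec, hPY2]
    rw [← hw, Matrix.mulVec_mulVec, hPA2, Matrix.zero_mulVec] at h2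
    rw [← hw, ← h2]
    rfl
  exact Submodule.finrank_lt_finrank_of_lt hlt

/-! ### polarisation: a finite test -/

lemma sum_signs {d : ℕ} (ρ : Fin d → Fin d) (hρ : ¬ Function.Surjective ρ) :
    ∑ U : Finset (Fin d), (if ∀ j, ρ j ∈ U then (-1 : K) ^ U.card else 0) = 0 := by
  simp only [Function.Surjective, not_forall, not_exists] at hρ
  obtain ⟨a, ha⟩ := hρ
  have hmem : ∀ U : Finset (Fin d), (∀ j, ρ j ∈ U) → ∀ j, ρ j ∈ U.erase a := fun U hU j =>
    Finset.mem_erase.2 ⟨ha j, hU j⟩
  have hmem' : ∀ U : Finset (Fin d), (∀ j, ρ j ∈ U) ↔ ∀ j, ρ j ∈ symmDiff U {a} := by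
    intro U
    refine forall_congr' fun j => ?_
    rw [Finset.mem_symmDiff, Finset.mem_singleton]
    constructor
    · intro h; exact Or.inl ⟨h, ha j⟩
    · rintro (⟨h, -⟩ | ⟨h, -⟩)
      · exact h
      · exact absurd h (ha j)
  refine Finset.sum_involution (fun U _ => symmDiff U {a}) ?_ ?_ (fun _ _ => Finset.mem_univ _) ?_
  · intro U _
    rw [← if_congr (hmem' U) rfl rfl]
    by_cases hU : ∀ j, ρ j ∈ U
    · rw [if_pos hU, if_pos hU]
      by_cases haU : a ∈ U
      · have e : symmDiff U {a} = U.erase a := by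
          ext b
          rw [Finset.mem_symmDiff, Finset.mem_singleton, Finset.mem_erase]
          constructor
          · rintro (⟨h1, h2⟩ | ⟨h1, h2⟩)
            · exact ⟨h2, h1⟩
            · exact absurd (h1 ▸ haU) h2
          · rintro ⟨h1, h2⟩; exact Or.inl ⟨h2, h1⟩
        have hc := Finset.card_erase_add_one haU
        rw [e, ← hc, pow_succ]; ring
      · have e : symmDiff U {a} = insert a U := by
          ext b
          rw [Finset.mem_symmDiff, Finset.mem_singleton, Finset.mem_insert]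
          constructor
          · rintro (⟨h1, h2⟩ | ⟨h1, h2⟩)
            · exact Or.inr h1
            · exact Or.inl h1
          · rintro (h1 | h1)
            · exact Or.inr ⟨h1, h1 ▸ haU⟩
            · exact Or.inl ⟨h1, fun h => haU (h ▸ h1)⟩
        rw [e, Finset.card_insert_of_notMem haU, pow_succ]; ring
    · rw [if_neg hU, if_neg hU, add_zero]
  · intro U _ _ h
    have h1 : symmDiff U {a} = U := h
    rw [symmDiff_eq_left] at h1
    exact absurd (Finset.mem_singleton_self a) (by rw [h1]; exact Finset.notMem_empty a)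
  · intro U _
    rw [symmDiff_assoc, symmDiff_self, symmDiff_bot]

lemma sum_signs_surj {d : ℕ} (ρ : Fin d → Fin d) (hρ : Function.Surjective ρ) :
    ∑ U : Finset (Fin d), (if ∀ j, ρ j ∈ U then (-1 : K) ^ U.card else 0) = (-1) ^ d := by
  rw [Finset.sum_eq_single Finset.univ]
  · rw [if_pos (fun j => Finset.mem_univ _), Finset.card_univ, Fintype.card_fin]
  · intro U _ hU
    rw [if_neg]
    intro h
    apply hU
    rw [Finset.eq_univ_iff_forall]
    intro x
    obtain ⟨j, rfl⟩ := hρ x
    exact h j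
  · intro h; exact absurd (Finset.mem_univ _) h

lemma polar [CharZero K] {σ : Type*} [Fintype σ] {d : ℕ} (C : σ → Matrix n n K)
    (φ : Matrix n n K →ₗ[K] K)
    (h : ∀ l : List σ, l.length ≤ d → φ (((l.map C).sum) ^ d) = 0) (x : σ → K) :
    φ ((∑ i, x i • C i) ^ d) = 0 := by
  classical
  set T : (Fin d → σ) → K := fun r =>
    φ ((MultilinearMap.mkPiAlgebraFin K d (Matrix n n K)) (fun j => C (r j))) with hT
  -- (2)
  have h2 : ∀ r : Fin d → σ, ∑ π : Equiv.Perm (Fin d), T (r ∘ π) = 0 := by
    intro r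
    have hU : ∀ U : Finset (Fin d),
        ∑ ρ : Fin d → Fin d, (if ∀ j, ρ j ∈ U then T (r ∘ ρ) else 0) = 0 := by
      intro U
      have h0 := h (U.toList.map r) (by
        rw [List.length_map, Finset.length_toList]
        exact (Finset.card_le_univ U).trans (by rw [Fintype.card_fin]))
      rw [List.map_map] at h0
      have e : (U.toList.map (C ∘ r)).sum = ∑ j ∈ U, C (r j) := by
        rw [← Finset.sum_map_toList]; rfl
      rw [e, ← MultilinearMap.mkPiAlgebraFin_apply_const (R := K),
        MultilinearMap.map_sum_finset (MultilinearMap.mkPiAlgebraFin K d (Matrix n n K))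
          (fun _ j => C (r j)) (fun _ => U), _root_.map_sum] at h0
      refine Eq.trans ?_ h0
      rw [← Finset.sum_filter]
      refine Finset.sum_congr ?_ fun ρ _ => rfl
      ext ρ
      simp
    have h3 : ∑ U : Finset (Fin d), (-1 : K) ^ U.card *
        ∑ ρ : Fin d → Fin d, (if ∀ j, ρ j ∈ U then T (r ∘ ρ) else 0) = 0 := by
      refine Finset.sum_eq_zero fun U _ => ?_
      rw [hU U, mul_zero]
    have h4 : ∑ U : Finset (Fin d), (-1 : K) ^ U.card *
        ∑ ρ : Fin d → Fin d, (if ∀ j, ρ j ∈ U then T (r ∘ ρ) else 0)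
        = ∑ ρ : Fin d → Fin d, T (r ∘ ρ) *
          ∑ U : Finset (Fin d), (if ∀ j, ρ j ∈ U then (-1 : K) ^ U.card else 0) := by
      simp_rw [Finset.mul_sum]
      rw [Finset.sum_comm]
      refine Finset.sum_congr rfl fun ρ _ => Finset.sum_congr rfl fun U _ => ?_
      split_ifs
      · ring
      · ring
    rw [h4] at h3
    have h5 : ∀ ρ : Fin d → Fin d, T (r ∘ ρ) *
          ∑ U : Finset (Fin d), (if ∀ j, ρ j ∈ U then (-1 : K) ^ U.card else 0)
        = if Function.Bijective ρ then T (r ∘ ρ) * (-1) ^ d else 0 := by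
      intro ρ
      by_cases hρ : Function.Surjective ρ
      · rw [sum_signs_surj ρ hρ, if_pos (Finite.injective_iff_bijective.1
          (Finite.injective_iff_surjective.2 hρ))]
      · rw [sum_signs ρ hρ, mul_zero, if_neg fun hb => hρ hb.2]
    simp_rw [h5] at h3
    rw [← Finset.sum_filter] at h3
    have h6 : ∑ ρ : Fin d → Fin d with Function.Bijective ρ, T (r ∘ ρ) * (-1) ^ d
        = ∑ π : Equiv.Perm (Fin d), T (r ∘ π) * (-1) ^ d := by
      symm
      refine Finset.sum_bij (fun π _ => (π : Fin d → Fin d)) ?_ ?_ ?_ ?_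
      · intro π _; exact Finset.mem_filter.2 ⟨Finset.mem_univ _, π.bijective⟩
      · intro π _ π' _ hh; exact Equiv.coe_fn_injective hh
      · intro ρ hρ
        rw [Finset.mem_filter] at hρ
        exact ⟨Equiv.ofBijective ρ hρ.2, Finset.mem_univ _, rfl⟩
      · intro π _; rfl
    rw [h6, ← Finset.sum_mul] at h3
    exact (mul_eq_zero.1 h3).resolve_right (pow_ne_zero _ (by norm_num))
  -- (1)
  have h1 : φ ((∑ i, x i • C i) ^ d) = ∑ r : Fin d → σ, (∏ j, x (r j)) * T r := by
    rw [← MultilinearMap.mkPiAlgebraFin_apply_const (R := K),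
      MultilinearMap.map_sum (MultilinearMap.mkPiAlgebraFin K d (Matrix n n K))
        (fun _ i => x i • C i), _root_.map_sum]
    refine Finset.sum_congr rfl fun r _ => ?_
    rw [MultilinearMap.map_smul_univ, map_smul, smul_eq_mul]
  have h3 : (Fintype.card (Equiv.Perm (Fin d)) : K) * φ ((∑ i, x i • C i) ^ d) = 0 := by
    rw [← nsmul_eq_mul, ← Finset.card_univ, ← Finset.sum_const]
    have : ∀ π : Equiv.Perm (Fin d), φ ((∑ i, x i • C i) ^ d)
        = ∑ r : Fin d → σ, (∏ j, x (r j)) * T (r ∘ π) := by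
      intro π
      rw [h1]
      refine (Fintype.sum_equiv (Equiv.arrowCongr π.symm (Equiv.refl σ)) _ _ fun r => ?_).symm
      · have e : (Equiv.arrowCongr π.symm (Equiv.refl σ)) r = r ∘ π := by
          ext j; simp [Equiv.arrowCongr]
        rw [e]
        congr 1
        exact (Equiv.prod_comp π (fun j => x (r j))).symm
    rw [Finset.sum_congr rfl fun π _ => this π, Finset.sum_comm]
    refine Finset.sum_eq_zero fun r _ => ?_
    rw [← Finset.mul_sum, h2 r, mul_zero]
  refine (mul_eq_zero.1 h3).resolve_left (Nat.cast_ne_zero.2 Fintype.card_ne_zero)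

end H659R2.PC
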